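import Pool.Agent.W186.AI.Spec

set_option autoImplicit false

namespace Pool.Agent.W898.AI.CNT

open Complex Filter Topology Metric Set
open Pool.Agent.W186.AI

/-- the zeros of a nonzero real analytic function on `(1/2, oo)` are countable -/
theorem cnt (F : ℝ → ℝ) (hF : AnalyticOnNhd ℝ F (Ioi (1 / 2))) (hne : ¬ ∀ a : ℝ, 1 / 2 < a → F a = 0) :
    {a : ℝ | 1 / 2 < a ∧ F a = 0}.Countable := by
  have hiso : ∀ a ∈ {a : ℝ | 1 / 2 < a ∧ F a = 0}, ∀ᶠ z in 𝓝[≠] a, F z ≠ 0 := by
    intro a ha
    rcases (hF a ha.1).eventually_eq_zero_or_eventually_ne_zero with h | h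
    · exfalso
      apply hne
      intro b hb
      exact hF.eqOn_zero_of_preconnected_of_eventuallyEq_zero isPreconnected_Ioi ha.1 h hb
    · exact h
  have hdisc : DiscreteTopology {a : ℝ | 1 / 2 < a ∧ F a = 0} := by
    rw [discreteTopology_subtype_iff]
    intro a ha
    rw [← disjoint_iff, Filter.disjoint_principal_right]
    filter_upwards [hiso a ha] with z hz hz2
    exact hz hz2.2
  exact (HereditarilyLindelofSpace.isLindelof _).countable hdisc

theorem main (he : S_ENU) (hr : S_RAN) (hc : S_COR) : S_MAIN := by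
  obtain ⟨τ, hτ⟩ := he
  have han := hr τ hτ
  refine ⟨⋃ (m : ℕ), ⋃ (n : Fin m → ℕ), ⋃ (q : (Fin m →₀ ℕ) →₀ ℚ),
    {a : ℝ | 1 / 2 < a ∧ Function.Injective n ∧ ∃ p : MvPolynomial (Fin m) ℚ, p ≠ 0 ∧
      (∀ s, p.coeff s = q s) ∧ MvPolynomial.aeval (fun i => τ (n i) a) p = 0}, ?_, ?_⟩
  · refine Set.countable_iUnion fun m => Set.countable_iUnion fun n => Set.countable_iUnion fun q => ?_
    by_cases hn : Function.Injective n
    · by_cases hp : ∃ p : MvPolynomial (Fin m) ℚ, p ≠ 0 ∧ (∀ s, p.coeff s = q s)
      · obtain ⟨p, hp0, hpq⟩ := hp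
        have hA : AnalyticOnNhd ℝ (fun a => MvPolynomial.aeval (fun i => τ (n i) a) p) (Ioi (1 / 2)) := by
          intro a ha
          exact AnalyticAt.aeval_mvPolynomial (f := fun a i => τ (n i) a) (fun i => han (n i) a ha) p
        have hne : ¬ ∀ a : ℝ, 1 / 2 < a → MvPolynomial.aeval (fun i => τ (n i) a) p = 0 := by
          intro hall
          have h0 := hc τ hτ m n (MvPolynomial.map (algebraMap ℚ ℂ) p) hn (fun a ha => by
            have e := hall a ha
            have e2 := MvPolynomial.aeval_algebraMap_apply (A := ℝ) ℂ (fun i => τ (n i) a) p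
            rw [e, map_zero] at e2
            rw [MvPolynomial.eval_map, ← MvPolynomial.aeval_def]
            exact e2)
          apply hp0
          apply MvPolynomial.map_injective (algebraMap ℚ ℂ) (algebraMap ℚ ℂ).injective
          rw [h0, map_zero]
        refine (cnt _ hA hne).mono ?_
        rintro a ⟨h1, -, p', hp'0, hp'q, h3⟩
        have : p' = p := by
          ext s
          rw [hp'q, hpq]
        subst this
        exact ⟨h1, h3⟩
      · convert Set.countable_empty
        ext a
        simp only [mem_ofPred_eq, mem_empty_iff_false, iff_false]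
        rintro ⟨h1, -, p', hp'0, hp'q, h3⟩
        exact hp ⟨p', hp'0, hp'q⟩
    · convert Set.countable_empty
      ext a
      simp only [mem_ofPred_eq, mem_empty_iff_false, iff_false]
      rintro ⟨h1, h2, -⟩
      exact hn h2
  · intro a ha haB
    rw [algebraicIndependent_iff]
    intro P hP
    obtain ⟨m, f, hf, q, rfl⟩ := P.exists_fin_rename
    by_contra hne
    have hq : q ≠ 0 := by
      rintro rfl
      exact hne (map_zero _)
    have hex : ∀ i : Fin m, ∃ k : ℕ, ((f i : {t : ℝ // 0 < t ∧ X a t = 0}) : ℝ) = τ k a := fun i =>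
      hτ.2.2.1 a (f i) ha (f i).2.1 (f i).2.2
    choose n hn using hex
    have hninj : Function.Injective n := by
      intro i j hij
      apply hf
      apply Subtype.ext
      rw [hn i, hn j, hij]
    apply haB
    simp only [mem_iUnion]
    refine ⟨m, n, Finsupp.onFinset q.support (fun s => q.coeff s) (fun s hs => by
      rwa [MvPolynomial.mem_support_iff]), ha, hninj, q, hq, fun s => rfl, ?_⟩
    rw [MvPolynomial.aeval_rename] at hP
    have : ((fun t : {t : ℝ // 0 < t ∧ X a t = 0} => (t : ℝ)) ∘ f) = fun i => τ (n i) a := by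
      funext i
      exact hn i
    rw [this] at hP
    exact hP

end Pool.Agent.W898.AI.CNT
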